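import Pool.Agent.H6.DD.DualW
import Pool.Agent.H6.DD.Obtuse

/-!
# MP_ef2672_gt: lattices whose dual lattice is diagonally dominant with bounded integer weights

`L = A ℤⁿ` is a lattice, `gam A = λ₁² / det^(2/n)` its Hermite invariant, and the dual lattice `L*`
is `(Aᵀ)⁻¹ ℤⁿ`. `dualConstant n D` is the supremum of the Hermite invariants of the lattices `L` of
rank `n` for which `L*` has a basis with Gram matrix `M` and positive integers `d_i ≤ D` such that
`∑_{j ≠ i} |M_ij| d_j ≤ M_ii d_i` for all `i` (`DualDom A D`).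

* All these invariants are at most `2 D²`, whatever the rank is. Every lattice is in the class for
  some `D`; so the weights which are needed for the dual lattice of `L` are not all smaller than
  `√(gam L / 2)`.
* For `D = 1`, that is when `L*` has a diagonally dominant Gram matrix, the supremum lies between
  `2 (n + 1) ^ (-1/n)`, the invariant of the root lattice `A_n`, and `2`. So it tends to `2`.
* The suprema for weights at most `D(n) = o(√n)` are `o(n)`.

Idea: `n = ∑ M_ik P_ik` for the Gram matrix `P` of `L` in the dual basis `b_i`. The vectors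
`d_k b_i ± d_i b_k` are not shorter than `λ₁`, which bounds the terms with `i ≠ k` from below.
The result is `λ₁² tr M ≤ 2 D² n`, and `det M ≤ (tr M / n)^n`.
-/

set_option autoImplicit false

open Matrix Finset Filter Topology

namespace Pool.Agent.Results.MP_ef2672_gt.DualDominance

open Pool.Agent.H6.DD

/-- The dual lattice `(Aᵀ)⁻¹ ℤⁿ` of the lattice `A ℤⁿ` has a basis with Gram matrix `M`, and there are
positive integers `d_i ≤ D`, such that `∑_{j ≠ i} |M_ij| d_j ≤ M_ii d_i` for all `i`. -/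
def DualDom {n : ℕ} (A : Matrix (Fin n) (Fin n) ℝ) (D : ℕ) : Prop :=
  ∃ U : Matrix (Fin n) (Fin n) ℤ, IsUnit U.det ∧ ∃ d : Fin n → ℕ, (∀ i, 0 < d i ∧ d i ≤ D) ∧
    ∀ i, ∑ j ∈ univ.erase i, |gram (Aᵀ)⁻¹ U i j| * d j ≤ gram (Aᵀ)⁻¹ U i i * d i

/-- The supremum of the Hermite invariants of the lattices `A ℤⁿ` with `DualDom A D`. -/
noncomputable def dualConstant (n D : ℕ) : ℝ :=
  ⨆ A : {A : Matrix (Fin n) (Fin n) ℝ // A.det ≠ 0 ∧ DualDom A D}, gam A.1

theorem result :
    -- (1) the bound, for every rank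
    (∀ n D : ℕ, 0 < n → ∀ A : Matrix (Fin n) (Fin n) ℝ, A.det ≠ 0 → DualDom A D →
      gam A ≤ 2 * (D : ℝ) ^ 2) ∧
    -- (2) every lattice belongs to one of the classes
    (∀ (n : ℕ) (A : Matrix (Fin n) (Fin n) ℝ), A.det ≠ 0 → ∃ D : ℕ, DualDom A D) ∧
    -- (3) the dual lattice is diagonally dominant: between the root lattice `A_n` and `2`
    (∀ n : ℕ, 0 < n →
      (∃ A : Matrix (Fin n) (Fin n) ℝ, A.det ≠ 0 ∧ Aᵀ * A = 1 + Matrix.of (fun _ _ => (1 : ℝ)) ∧
        DualDom A 1 ∧ gam A = 2 * ((n : ℝ) + 1) ^ (-(1 : ℝ) / n)) ∧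
      2 * ((n : ℝ) + 1) ^ (-(1 : ℝ) / n) ≤ dualConstant n 1 ∧ dualConstant n 1 ≤ 2) ∧
    Tendsto (fun n : ℕ => dualConstant n 1) atTop (𝓝 2) ∧
    -- (4) weights `o(√n)`
    (∀ D : ℕ → ℕ, Tendsto (fun n : ℕ => (D n : ℝ) / Real.sqrt n) atTop (𝓝 0) →
      Tendsto (fun n : ℕ => dualConstant n (D n) / (n : ℝ)) atTop (𝓝 0)) := by
  have h1 : ∀ n D : ℕ, 0 < n → ∀ A : Matrix (Fin n) (Fin n) ℝ, A.det ≠ 0 → DualDom A D →
      gam A ≤ 2 * (D : ℝ) ^ 2 := by
    rintro n D hn A hA ⟨U, hU, d, hd, h⟩
    exact gam_le_dual_weights hn A hA U hU d D (fun i => (hd i).1) (fun i => (hd i).2) h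
  have h0 : ∀ n D : ℕ, 0 ≤ dualConstant n D := by
    intro n D
    refine Real.iSup_nonneg fun A => ?_
    rw [gam_eq]
    exact div_nonneg (lam_nonneg _) (Real.rpow_nonneg (abs_nonneg _) _)
  have h3 : ∀ n : ℕ, 0 < n →
      (∃ A : Matrix (Fin n) (Fin n) ℝ, A.det ≠ 0 ∧ Aᵀ * A = 1 + Matrix.of (fun _ _ => (1 : ℝ)) ∧
        DualDom A 1 ∧ gam A = 2 * ((n : ℝ) + 1) ^ (-(1 : ℝ) / n)) ∧
      2 * ((n : ℝ) + 1) ^ (-(1 : ℝ) / n) ≤ dualConstant n 1 ∧ dualConstant n 1 ≤ 2 := by
    intro n hn
    have hdom : DualDom (An n) 1 := by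
      refine ⟨1, by simp, fun _ => 1, fun _ => ⟨one_pos, le_rfl⟩, ?_⟩
      intro i
      have h := An_dual n hn i
      unfold RowDom at h
      simpa using h
    have hb : BddAbove (Set.range fun A : {A : Matrix (Fin n) (Fin n) ℝ //
        A.det ≠ 0 ∧ DualDom A 1} => gam A.1) := by
      refine ⟨2 * ((1 : ℕ) : ℝ) ^ 2, ?_⟩
      rintro _ ⟨A, rfl⟩
      exact h1 n 1 hn A.1 A.2.1 A.2.2
    refine ⟨⟨An n, An_det_ne n hn, An_sq n hn, hdom, An_gam n hn⟩, ?_, ?_⟩
    · rw [← An_gam n hn]
      exact le_ciSup hb ⟨An n, An_det_ne n hn, hdom⟩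
    · refine Real.iSup_le (fun A => ?_) (by norm_num)
      have := h1 n 1 hn A.1 A.2.1 A.2.2
      simpa using this
  refine ⟨h1, ?_, h3, ?_, ?_⟩
  · intro n A hA
    have hB : ((Aᵀ)⁻¹).det ≠ 0 := by
      rw [Matrix.det_nonsing_inv, Matrix.det_transpose]
      exact (isUnit_iff_ne_zero.2 hA).ringInverse.ne_zero
    obtain ⟨U, hU, -, d, hd, h⟩ := exists_basis_weights (Aᵀ)⁻¹ hB
    refine ⟨∑ i, d i, U, by rw [hU]; exact isUnit_one, d, fun i => ⟨hd i, ?_⟩,
      fun i => (h i).le⟩
    exact Finset.single_le_sum (f := d) (fun _ _ => Nat.zero_le _) (Finset.mem_univ i)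
  · have hlim : Tendsto (fun n : ℕ => 2 * ((n : ℝ) + 1) ^ (-(1 : ℝ) / n)) atTop (𝓝 2) := by
      have h5 : Tendsto (fun x : ℝ => ((x + 1) ^ ((1 : ℝ) / x))) atTop (𝓝 1) := by
        have h6 : Tendsto (fun x : ℝ => Real.exp (Real.log (x + 1) / x)) atTop (𝓝 1) := by
          have h7 : Tendsto (fun x : ℝ => Real.log (x + 1) / x) atTop (𝓝 0) := by
            have h8 : Tendsto (fun x : ℝ => Real.log (x + 1) / (x + 1)) atTop (𝓝 0) := by
              have h9 : Tendsto (fun x : ℝ => Real.log x / x) atTop (𝓝 0) := by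
                have := Real.isLittleO_log_id_atTop
                exact this.tendsto_div_nhds_zero
              exact h9.comp (tendsto_atTop_add_const_right _ 1 tendsto_id)
            have h10 : Tendsto (fun x : ℝ => (x + 1) / x) atTop (𝓝 1) := by
              have h11 : Tendsto (fun x : ℝ => 1 + x⁻¹) atTop (𝓝 (1 + 0)) :=
                tendsto_const_nhds.add tendsto_inv_atTop_zero
              rw [add_zero] at h11
              refine h11.congr' ?_
              filter_upwards [eventually_gt_atTop 0] with x hx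
              field_simp
            have h12 := h8.mul h10
            rw [zero_mul] at h12
            refine h12.congr' ?_
            filter_upwards [eventually_gt_atTop 0] with x hx
            have : x + 1 ≠ 0 := by positivity
            field_simp
          have := (Real.continuous_exp.tendsto 0).comp h7
          rw [Real.exp_zero] at this
          exact this
        refine h6.congr' ?_
        filter_upwards [eventually_gt_atTop 0] with x hx
        rw [Real.rpow_def_of_pos (by positivity)]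
        congr 1
        ring
      have h13 : Tendsto (fun n : ℕ => (((n : ℝ) + 1) ^ ((1 : ℝ) / n))⁻¹) atTop (𝓝 (1⁻¹)) :=
        (h5.comp tendsto_natCast_atTop_atTop).inv₀ one_ne_zero
      have h14 := h13.const_mul 2
      simp only [inv_one, mul_one] at h14
      refine h14.congr fun n => ?_
      rw [neg_div, Real.rpow_neg (by positivity)]
    refine tendsto_of_tendsto_of_tendsto_of_le_of_le' hlim tendsto_const_nhds ?_ ?_
    · filter_upwards [eventually_gt_atTop 0] with n hn using (h3 n hn).2.1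
    · filter_upwards [eventually_gt_atTop 0] with n hn using (h3 n hn).2.2
  · intro D hD
    have hD2 : Tendsto (fun n : ℕ => 2 * ((D n : ℝ) / Real.sqrt n) ^ 2) atTop (𝓝 0) := by
      have := (hD.pow 2).const_mul 2
      simpa using this
    refine squeeze_zero' ?_ ?_ hD2
    · filter_upwards with n
      exact div_nonneg (h0 n (D n)) (Nat.cast_nonneg n)
    · filter_upwards [eventually_gt_atTop 0] with n hn
      have hn' : (0 : ℝ) < n := by exact_mod_cast hn
      rw [div_pow, Real.sq_sqrt hn'.le, ← mul_div_assoc]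
      refine div_le_div_of_nonneg_right ?_ hn'.le
      exact Real.iSup_le (fun A => h1 n (D n) hn A.1 A.2.1 A.2.2) (by positivity)

end Pool.Agent.Results.MP_ef2672_gt.DualDominance
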