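import Pool.Agent.H97.ZL.Herm

/-!
# MP_ef2672_gt: Hermite's constant for lattices with zonotopal Voronoi cells, and beyond

Let `a_1, …, a_N` be integer linear forms in `n` variables and `w_1, …, w_N ≥ 0`. If all maximal
minors of the system `(a_e)` are at most `D` in absolute value, and a lattice has a basis in which the
squared length is `∑ w_e a_e(x)²`, we call the lattice `D`-modular. Every lattice is `D`-modular for
some `D`. The `1`-modular lattices are the lattices of regular matroids; they contain all lattices of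
integer flows and of integer cuts of weighted graphs, and their Voronoi cells are zonotopes.

We show that the Hermite invariant of a `D`-modular lattice is at most `D² (n!)^{1/(2n)}`, of order
`D² √n`, and more generally at most `D² I^{2/n} (n!)^{1/(2n)}` if only some sublattice of index `I` is
`D`-modular. So a lattice with `γ(L) ≥ c n` (the lattices that matter for the asymptotics of `γ_n / n`
are of this kind) satisfies `D² I^{2/n} ≥ c √n` for all its `D`-modular sublattices of index `I`; and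
the analogue of Hermite's constant for `D(n)`-modular lattices is `o(n)` whenever `D(n) = o(n^{1/4})`.

Proof. Let `m` be the least value of `Q = ∑ w_e a_e²` at nonzero integer points.
(1) For real `x` with `max |a_e(x)| = 1` the polytope `⌊a_e(x)⌋ ≤ a_e(y) ≤ ⌈a_e(x)⌉` has a vertex `y ≠ 0`
with `∑ w_e |a_e(y)| ≤ ∑ w_e |a_e(x)|`, a multiple `d y`, `0 < d ≤ D`, is an integer point, and
`|a_e(y)| ≤ 1`; hence `∑ w_e |a_e(x)| ≥ Q(y) ≥ m / D²`.
(2) Applied to `x = G⁻¹ a_e` (`G` the matrix of `Q`) this gives, with Cauchy's inequality and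
`∑ w_e a_eᵀ G⁻¹ a_e = n`, that the total weight of the nonzero forms is at least `(m / D²) √n`.
(3) `n det G = ∑ w_e a_eᵀ adj(G) a_e`, and `a_eᵀ adj(G) a_e` is at least the determinant of the
restriction of `Q` to the integer points of the kernel of `a_e`, which is `D`-modular of rank `n - 1`
and has minimum at least `m`. By induction `m^n ≤ D^(2n) √(n!) det G`.
-/

set_option autoImplicit false

open Filter Finset
open scoped Topology

namespace Pool.Agent.Results.MP_ef2672_gt.ModularLattices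

/-- The least squared length of a nonzero vector of the lattice `A ℤ^n`. -/
noncomputable def minNorm {n : ℕ} (A : Matrix (Fin n) (Fin n) ℝ) : ℝ :=
  ⨅ z : {z : Fin n → ℤ // z ≠ 0}, ∑ i, (Matrix.mulVec A (fun j => (z.1 j : ℝ))) i ^ 2

/-- Hermite's invariant of the lattice `A ℤ^n`. -/
noncomputable def hermite {n : ℕ} (A : Matrix (Fin n) (Fin n) ℝ) : ℝ :=
  minNorm A / |A.det| ^ ((2 : ℝ) / (n : ℝ))

/-- `A ℤ^n` is `D`-modular: the Gram matrix of the columns of `A` is `∑ w_e a_e a_eᵀ` with `w_e ≥ 0`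
and integer vectors `a_e` all of whose maximal minors are at most `D` in absolute value. -/
def IsModular {n : ℕ} (A : Matrix (Fin n) (Fin n) ℝ) (D : ℕ) : Prop :=
  ∃ (N : ℕ) (a : Fin N → Fin n → ℤ) (w : Fin N → ℝ), (∀ e, 0 ≤ w e) ∧
    (∀ f : Fin n → Fin N, |(Matrix.of fun i => a (f i)).det| ≤ D) ∧
    ∀ i j, (A.transpose * A) i j = ∑ e, w e * (a e i : ℝ) * (a e j : ℝ)

/-- Hermite's constant of the `D`-modular lattices of `ℝ^n`. -/
noncomputable def modularConstant (n D : ℕ) : ℝ :=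
  ⨆ A : {A : Matrix (Fin n) (Fin n) ℝ // A.det ≠ 0 ∧ IsModular A D}, hermite A.1

/-- The Voronoi cell of the lattice `A ℤ^n`: the points at least as close to `0` as to every other
lattice point. -/
def voronoi {n : ℕ} (A : Matrix (Fin n) (Fin n) ℝ) : Set (EuclideanSpace ℝ (Fin n)) :=
  {x | ∀ z : Fin n → ℤ, ‖x‖ ≤ ‖x - WithLp.toLp 2 (Matrix.mulVec A fun j => (z j : ℝ))‖}

/-- The zonotope with generators `z_e`, centred at the origin. -/
def zonotope {n N : ℕ} (z : Fin N → EuclideanSpace ℝ (Fin n)) : Set (EuclideanSpace ℝ (Fin n)) :=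
  {x | ∃ t : Fin N → ℝ, (∀ e, |t e| ≤ 1 / 2) ∧ x = ∑ e, t e • z e}

lemma minNorm_nonneg {n : ℕ} (A : Matrix (Fin n) (Fin n) ℝ) : 0 ≤ minNorm A :=
  Real.iInf_nonneg fun _ => sum_nonneg fun _ _ => sq_nonneg _

lemma minNorm_le {n : ℕ} (A : Matrix (Fin n) (Fin n) ℝ) (z : Fin n → ℤ) (hz : z ≠ 0) :
    minNorm A ≤ ∑ i, (Matrix.mulVec A (fun j => (z j : ℝ))) i ^ 2 := by
  refine ciInf_le ⟨0, ?_⟩ (⟨z, hz⟩ : {z : Fin n → ℤ // z ≠ 0})
  rintro _ ⟨z, rfl⟩
  exact sum_nonneg fun _ _ => sq_nonneg _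

lemma hermite_nonneg {n : ℕ} (A : Matrix (Fin n) (Fin n) ℝ) : 0 ≤ hermite A :=
  div_nonneg (minNorm_nonneg A) (Real.rpow_nonneg (abs_nonneg _) _)

/-- the inequality for sublattices -/
theorem hermite_le {n : ℕ} (hn : 0 < n) (A : Matrix (Fin n) (Fin n) ℝ) (hA : A.det ≠ 0)
    (S : Matrix (Fin n) (Fin n) ℤ) (hS : S.det ≠ 0) (D : ℕ) (hD : 0 < D)
    (h : IsModular (A * S.map (Int.cast : ℤ → ℝ)) D) :
    hermite A ≤ (D : ℝ) ^ 2 * |(S.det : ℝ)| ^ ((2 : ℝ) / n) *
      (n.factorial : ℝ) ^ ((1 : ℝ) / (2 * n)) := by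
  obtain ⟨N, a, w, hw, hminors, hG⟩ := h
  have hm := minNorm_nonneg A
  have hn' : (0 : ℝ) < n := by exact_mod_cast hn
  have hS' : (0 : ℝ) < |(S.det : ℝ)| := abs_pos.2 (by exact_mod_cast hS)
  have hA' : 0 < |A.det| := abs_pos.2 hA
  have hD' : (0 : ℝ) < D := by exact_mod_cast hD
  have h1 := Pool.Agent.H97.ZL.sublattice_ineq hA hS hw hG hD hminors hm fun z hz => minNorm_le A z hz
  have hf : (0 : ℝ) < (n.factorial : ℝ) := by exact_mod_cast n.factorial_pos
  set X : ℝ := (D : ℝ) ^ 2 * |(S.det : ℝ)| ^ ((2 : ℝ) / n) *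
      (n.factorial : ℝ) ^ ((1 : ℝ) / (2 * n)) * |A.det| ^ ((2 : ℝ) / (n : ℝ)) with hX
  have hX0 : 0 ≤ X := by positivity
  have hpow : ∀ t : ℝ, 0 < t → (t ^ ((2 : ℝ) / n)) ^ n = t ^ 2 := by
    intro t ht
    rw [← Real.rpow_natCast, ← Real.rpow_mul ht.le, div_mul_cancel₀ _ hn'.ne']
    exact_mod_cast Real.rpow_natCast t 2
  have hX1 : X ^ n = (D : ℝ) ^ (2 * n) * √(n.factorial : ℝ) * (A.det ^ 2 * (S.det : ℝ) ^ 2) := by
    rw [hX, mul_pow, mul_pow, mul_pow, hpow _ hS', hpow _ hA', sq_abs, sq_abs, ← pow_mul]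
    have h2 : ((n.factorial : ℝ) ^ ((1 : ℝ) / (2 * n))) ^ n = √(n.factorial : ℝ) := by
      rw [← Real.rpow_natCast, ← Real.rpow_mul hf.le, Real.sqrt_eq_rpow]
      congr 1
      field_simp
    rw [h2]
    ring
  have h3 : minNorm A ≤ X := by
    rw [← hX1] at h1
    exact le_of_pow_le_pow_left₀ hn.ne' hX0 h1
  rw [hermite, div_le_iff₀ (by positivity)]
  exact h3

lemma isModular_mul_one {n : ℕ} {A : Matrix (Fin n) (Fin n) ℝ} {D : ℕ} (h : IsModular A D) :
    IsModular (A * (1 : Matrix (Fin n) (Fin n) ℤ).map (Int.cast : ℤ → ℝ)) D := by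
  have h1 : (1 : Matrix (Fin n) (Fin n) ℤ).map (Int.cast : ℤ → ℝ) = 1 := by
    ext i j
    by_cases hij : i = j
    · subst hij; simp
    · simp [hij]
  rwa [h1, Matrix.mul_one]

lemma hermite_le_of_modular {n : ℕ} (hn : 0 < n) (A : Matrix (Fin n) (Fin n) ℝ) (hA : A.det ≠ 0)
    (D : ℕ) (hD : 0 < D) (h : IsModular A D) :
    hermite A ≤ (D : ℝ) ^ 2 * (n.factorial : ℝ) ^ ((1 : ℝ) / (2 * n)) := by
  have h1 := hermite_le hn A hA 1 (by simp) D hD (isModular_mul_one h)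
  simpa using h1

lemma factorial_rpow_le {n : ℕ} (hn : 0 < n) :
    (n.factorial : ℝ) ^ ((1 : ℝ) / (2 * n)) ≤ √(n : ℝ) := by
  have hn' : (0 : ℝ) < n := by exact_mod_cast hn
  have h2 : (n.factorial : ℝ) ≤ (n : ℝ) ^ n := by exact_mod_cast n.factorial_le_pow
  calc (n.factorial : ℝ) ^ ((1 : ℝ) / (2 * n)) ≤ ((n : ℝ) ^ n) ^ ((1 : ℝ) / (2 * n)) :=
        Real.rpow_le_rpow (by positivity) h2 (by positivity)
    _ = √(n : ℝ) := by
        rw [← Real.rpow_natCast, ← Real.rpow_mul hn'.le, Real.sqrt_eq_rpow]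
        congr 1
        field_simp

/-- **Theorem.**
(1) Every lattice is `D`-modular for some `D`.
(2) Let some sublattice of index `I = |det S|` of the lattice `A ℤ^n` be `D`-modular. Then
`γ(A) ≤ D² I^{2/n} (n!)^{1/(2n)}`.
(3) In particular, if `γ(A) ≥ c n` then `c √n ≤ D² I^{2/n}`.
(4) For `D`-modular lattices themselves the constant is at most `D² (n!)^{1/(2n)}`, and it is `o(n)` if
`D(n) / n^{1/4} → 0`.
(5) The Voronoi cell of a `1`-modular lattice is a zonotope. -/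
theorem result :
    (∀ (n : ℕ) (A : Matrix (Fin n) (Fin n) ℝ), A.det ≠ 0 → ∃ D : ℕ, 0 < D ∧ IsModular A D) ∧
    (∀ n : ℕ, 0 < n → ∀ A : Matrix (Fin n) (Fin n) ℝ, A.det ≠ 0 →
      ∀ S : Matrix (Fin n) (Fin n) ℤ, S.det ≠ 0 → ∀ D : ℕ, 0 < D →
      IsModular (A * S.map (Int.cast : ℤ → ℝ)) D →
      hermite A ≤ (D : ℝ) ^ 2 * |(S.det : ℝ)| ^ ((2 : ℝ) / n) *
        (n.factorial : ℝ) ^ ((1 : ℝ) / (2 * n)) ∧
      ∀ c : ℝ, c * n ≤ hermite A → c * √(n : ℝ) ≤ (D : ℝ) ^ 2 * |(S.det : ℝ)| ^ ((2 : ℝ) / n)) ∧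
    (∀ n : ℕ, 0 < n → ∀ D : ℕ, 0 < D →
      modularConstant n D ≤ (D : ℝ) ^ 2 * (n.factorial : ℝ) ^ ((1 : ℝ) / (2 * n))) ∧
    (∀ D : ℕ → ℕ, (∀ n, 0 < D n) →
      Tendsto (fun n : ℕ => (D n : ℝ) / (n : ℝ) ^ ((1 : ℝ) / 4)) atTop (𝓝 0) →
      Tendsto (fun n : ℕ => modularConstant n (D n) / n) atTop (𝓝 0)) ∧
    (∀ (n : ℕ) (A : Matrix (Fin n) (Fin n) ℝ), A.det ≠ 0 → IsModular A 1 →
      ∃ (N : ℕ) (z : Fin N → EuclideanSpace ℝ (Fin n)), voronoi A = zonotope z) := by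
  have hconst : ∀ n : ℕ, 0 < n → ∀ D : ℕ, 0 < D →
      modularConstant n D ≤ (D : ℝ) ^ 2 * (n.factorial : ℝ) ^ ((1 : ℝ) / (2 * n)) := by
    intro n hn D hD
    refine Real.iSup_le (fun A => ?_) (by positivity)
    exact hermite_le_of_modular hn A.1 A.2.1 D hD A.2.2
  refine ⟨?_, ?_, hconst, ?_, ?_⟩
  · intro n A hA
    obtain ⟨b, hb⟩ := Pool.Agent.H97.ZL.exists_basis hA
    obtain ⟨N, a, w, hw, hform⟩ := Pool.Agent.H97.ZL.exists_form b
    obtain ⟨D, hD, hDm⟩ := Pool.Agent.H97.ZL.exists_bound a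
    exact ⟨D, hD, N, a, w, hw, hDm, Pool.Agent.H97.ZL.gram_of_hasForm hb hform⟩
  · intro n hn A hA S hS D hD h
    have h1 := hermite_le hn A hA S hS D hD h
    refine ⟨h1, fun c hc => ?_⟩
    have hn' : (0 : ℝ) < n := by exact_mod_cast hn
    have hs : 0 < √(n : ℝ) := Real.sqrt_pos.2 hn'
    have h2 : c * n ≤ (D : ℝ) ^ 2 * |(S.det : ℝ)| ^ ((2 : ℝ) / n) * √(n : ℝ) :=
      (hc.trans h1).trans (mul_le_mul_of_nonneg_left (factorial_rpow_le hn) (by positivity))
    have h3 : c * √(n : ℝ) * √(n : ℝ) ≤ (D : ℝ) ^ 2 * |(S.det : ℝ)| ^ ((2 : ℝ) / n) * √(n : ℝ) := by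
      rw [mul_assoc, Real.mul_self_sqrt hn'.le]
      exact h2
    exact le_of_mul_le_mul_right h3 hs
  · intro D hD hlim
    have h0 : ∀ n, 0 ≤ modularConstant n (D n) := fun n => Real.iSup_nonneg fun A => hermite_nonneg _
    have hlim2 : Tendsto (fun n : ℕ => ((D n : ℝ) / (n : ℝ) ^ ((1 : ℝ) / 4)) ^ 2) atTop (𝓝 0) := by
      have := hlim.pow 2
      simpa using this
    refine squeeze_zero' (Eventually.of_forall fun n => div_nonneg (h0 n) (Nat.cast_nonneg n)) ?_ hlim2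
    filter_upwards [eventually_gt_atTop 0] with n hn
    have hn' : (0 : ℝ) < n := by exact_mod_cast hn
    have h1 : modularConstant n (D n) ≤ (D n : ℝ) ^ 2 * √(n : ℝ) :=
      (hconst n hn (D n) (hD n)).trans
        (mul_le_mul_of_nonneg_left (factorial_rpow_le hn) (by positivity))
    have h2 : ((n : ℝ) ^ ((1 : ℝ) / 4)) ^ 2 = √(n : ℝ) := by
      rw [← Real.rpow_natCast, ← Real.rpow_mul hn'.le, Real.sqrt_eq_rpow]
      norm_num
    have hs : 0 < √(n : ℝ) := Real.sqrt_pos.2 hn'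
    rw [div_pow, h2, div_le_div_iff₀ hn' hs]
    calc modularConstant n (D n) * √(n : ℝ) ≤ (D n : ℝ) ^ 2 * √(n : ℝ) * √(n : ℝ) :=
          mul_le_mul_of_nonneg_right h1 hs.le
      _ = (D n : ℝ) ^ 2 * n := by rw [mul_assoc, Real.mul_self_sqrt hn'.le]
  · rintro n A hA ⟨N, a, w, hw, hminors, hG⟩
    obtain ⟨b, hb⟩ := Pool.Agent.H97.ZL.exists_basis hA
    obtain ⟨z, hz⟩ := Pool.Agent.H97.ZL.voronoi_eq_zonotope
      (Pool.Agent.H97.ZL.hasForm_of_gram hb hG) hw (by exact_mod_cast hminors)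
    refine ⟨N, z, ?_⟩
    have hA' : ∀ c : Fin n → ℤ, (WithLp.toLp 2 (Matrix.mulVec A fun j => (c j : ℝ)) :
        EuclideanSpace ℝ (Fin n)) = ∑ i, (c i : ℝ) • b i := by
      intro c
      ext i
      simp only [Matrix.mulVec, dotProduct, ← hb]
      simp [mul_comm]
    have h1 : voronoi A = Pool.Agent.H97.ZL.voronoi (Pool.Agent.H97.ZL.lat b) := by
      ext x
      constructor
      · intro hx v hv
        obtain ⟨c, hc⟩ := (Submodule.mem_span_range_iff_exists_fun ℤ).1 hv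
        have h2 := hx c
        rw [hA'] at h2
        have h3 : ∑ i, (c i : ℝ) • b i = v := by
          rw [← hc]
          exact sum_congr rfl fun i _ => by rw [Int.cast_smul_eq_zsmul]
        rwa [h3] at h2
      · intro hx c
        rw [hA']
        exact hx _ (Pool.Agent.H97.ZL.mem_lat b c)
    rw [h1, hz]
    rfl

end Pool.Agent.Results.MP_ef2672_gt.ModularLattices
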