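import Pool.Agent.H6.DD.Dn
import Pool.Agent.H6.DD.OneRow

/-!
# MP_ef2672_gt: Hermite's constant and diagonally dominant Gram matrices

`L = A ℤⁿ` is a lattice, `gam A = λ₁² / det^(2/n)` its Hermite invariant, `hermite n = γ_n`. A row of
the Gram matrix `G` of a basis is diagonally dominant if `∑_{j ≠ i} |G_ij| ≤ G_ii`. Let `γ_n[k]` be
the supremum of the Hermite invariants of the lattices that have a basis for which at most `k` rows
of the Gram matrix are not diagonally dominant (`invariants n k` is the set of these invariants).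

* `γ_n[0] = 2 ^ (1 - 2 / n)` for all `n ≥ 3`, attained by the root lattice `D_n`. So `γ_n[0] / n → 0`.
* Every lattice has, for every `ε > 0`, a basis for which all rows but the first one satisfy
  `∑_{j ≠ i} |G_ij| ≤ ε G_ii`. So `γ_n[k] = γ_n` for all `k ≥ 1`.

Idea of the first bound: if `∑ ρ_l l(x)²` is a nonnegative combination of squares of linear forms
`l ∈ {x_i, x_i ± x_j}` then `n det = ∑ ρ_l det (restriction to l = 0)`, and the restrictions are
again diagonally dominant, with at least the same minimum; the induction starts at `n = 3`.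
-/

set_option autoImplicit false

open Matrix Finset Filter Topology

namespace Pool.Agent.Results.MP_ef2672_gt.OneBadRow

open Pool.Agent.H6.DD

theorem result :
    -- (1) all rows diagonally dominant: the best lattice is `D_n`
    (∀ n : ℕ, 3 ≤ n → IsGreatest (invariants n 0) (2 ^ (1 - (2 : ℝ) / n)) ∧
      ∃ A : Matrix (Fin n) (Fin n) ℝ,
        (∀ y : Fin n → ℝ, (∃ x : Fin n → ℤ, A.mulVec (fun j => (x j : ℝ)) = y) ↔
          ∃ z : Fin n → ℤ, (∀ i, y i = z i) ∧ Even (∑ i, z i)) ∧
        (∀ i, RowDom 1 (gram A 1) i) ∧ gam A = 2 ^ (1 - (2 : ℝ) / n)) ∧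
    -- (2) all rows but one
    (∀ (n : ℕ) (A : Matrix (Fin n) (Fin n) ℝ), A.det ≠ 0 → ∀ ε : ℝ, 0 < ε →
      ∃ U : Matrix (Fin n) (Fin n) ℤ, U.det = 1 ∧
        ∀ i : Fin n, (i : ℕ) ≠ 0 → RowDom ε (gram A U) i) ∧
    -- (3) the restricted constants
    (∀ n k : ℕ, 1 ≤ k → sSup (invariants n k) = hermite n) ∧
    Tendsto (fun n : ℕ => sSup (invariants n 0) / (n : ℝ)) atTop (𝓝 0) := by
  have h1 : ∀ n : ℕ, 3 ≤ n → IsGreatest (invariants n 0) (2 ^ (1 - (2 : ℝ) / n)) := by
    intro n hn
    constructor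
    · obtain ⟨m, rfl⟩ : ∃ m, n = m + 1 := ⟨n - 1, by omega⟩
      refine ⟨Dr m, by rw [Dr_det]; norm_num, ⟨1, by simp, ?_⟩, (Dr_gam m (by omega)).symm⟩
      have h2 : {i : Fin (m + 1) | ¬ RowDom 1 (gram (Dr m) 1) i} = ∅ := by
        ext i
        simp only [Set.mem_ofPred_eq, Set.mem_empty_iff_false, iff_false, not_not]
        exact Dr_rowDom m (by omega) i
      rw [h2]
      simp
    · rintro g ⟨A, hA, ⟨U, hU, hk⟩, rfl⟩
      have hall : ∀ i, RowDom 1 (gram A U) i := by
        intro i
        by_contra hi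
        have h2 : {i : Fin n | ¬ RowDom 1 (gram A U) i}.ncard = 0 := by omega
        rw [Set.ncard_eq_zero (Set.toFinite _)] at h2
        have h3 : i ∈ {i : Fin n | ¬ RowDom 1 (gram A U) i} := hi
        rw [h2] at h3
        exact h3
      have h2 := gam_le hn A hA U hU.ne_zero hall
      have h3 : |(U.det : ℝ)| = 1 := by
        rcases Int.isUnit_iff.1 hU with h | h <;> rw [h] <;> norm_num
      rw [h3, Real.one_rpow, mul_one] at h2
      exact h2
  refine ⟨fun n hn => ⟨h1 n hn, ?_⟩, fun n A hA ε hε => exists_basis A hA ε hε, ?_, ?_⟩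
  · obtain ⟨m, rfl⟩ : ∃ m, n = m + 1 := ⟨n - 1, by omega⟩
    refine ⟨Dr m, fun y => ?_, fun i => Dr_rowDom m (by omega) i, Dr_gam m (by omega)⟩
    constructor
    · rintro ⟨x, rfl⟩
      exact ⟨(Dz m).mulVec x, fun i => Dr_mulVec m x i, (Dz_image m _).1 ⟨x, rfl⟩⟩
    · rintro ⟨z, hz, he⟩
      obtain ⟨x, hx⟩ := (Dz_image m z).2 he
      refine ⟨x, ?_⟩
      funext i
      rw [Dr_mulVec, hx, hz i]
  · intro n k hk
    have h2 : invariants n k
        = Set.range (fun A : {A : Matrix (Fin n) (Fin n) ℝ // A.det ≠ 0} => gam A.1) := by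
      ext g
      constructor
      · rintro ⟨A, hA, _, rfl⟩
        exact ⟨⟨A, hA⟩, rfl⟩
      · rintro ⟨⟨A, hA⟩, rfl⟩
        obtain ⟨U, hU, h3⟩ := exists_basis A hA 1 one_pos
        refine ⟨A, hA, ⟨U, by rw [hU]; exact isUnit_one, ?_⟩, rfl⟩
        refine le_trans ?_ hk
        rw [Set.ncard_le_one (Set.toFinite _)]
        intro a ha b hb
        have ha' : (a : ℕ) = 0 := by
          by_contra h; exact ha (h3 a h)
        have hb' : (b : ℕ) = 0 := by
          by_contra h; exact hb (h3 b h)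
        exact Fin.ext (ha'.trans hb'.symm)
    rw [h2]
    rfl
  · refine squeeze_zero' (g := fun n : ℕ => 2 / (n : ℝ)) ?_ ?_
      (tendsto_const_div_atTop_nhds_zero_nat 2)
    · filter_upwards [eventually_ge_atTop 3] with n hn
      rw [(h1 n hn).csSup_eq]
      positivity
    · filter_upwards [eventually_ge_atTop 3] with n hn
      rw [(h1 n hn).csSup_eq]
      have hn' : (0 : ℝ) < n := by
        have : 0 < n := by omega
        positivity
      refine div_le_div_of_nonneg_right ?_ hn'.le
      calc (2 : ℝ) ^ (1 - (2 : ℝ) / n) ≤ 2 ^ (1 : ℝ) := by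
            refine Real.rpow_le_rpow_of_exponent_le (by norm_num) ?_
            have : (0 : ℝ) ≤ 2 / n := by positivity
            linarith
        _ = 2 := Real.rpow_one 2

end Pool.Agent.Results.MP_ef2672_gt.OneBadRow
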