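import Pool.Agent.H6.DD.Obtuse

/-!
# MP_ef2672_gt: the price of diagonal dominance with weights

`L = A ℤⁿ` is a lattice, `gam A = λ₁² / det^(2/n)` its Hermite invariant, `G` the Gram matrix of a
basis, or of `n` independent vectors, of `L`.

* Every lattice has a basis which is obtuse (`G_ij < 0` for `i ≠ j`) and for which all rows satisfy
  `∑_{j ≠ i} |G_ij| d_j < G_ii d_i` with positive integers `d_i`.
* The product of the weights has to be large: if `n` independent vectors of the lattice, `n ≥ 3`,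
  satisfy `∑_{j ≠ i} |G_ij| d_j ≤ G_ii d_i` with positive integers `d_i`, and `m` is the index of the
  sublattice that they generate, then `m ∏ d_i ≥ 2 (gam A / 2) ^ (n / 2)`.
-/

set_option autoImplicit false

open Matrix Finset Filter Topology

namespace Pool.Agent.Results.MP_ef2672_gt.WeightedDominance

open Pool.Agent.H6.DD

theorem result :
    -- (1) every lattice has an obtuse basis that is dominated with integer weights
    (∀ (n : ℕ) (A : Matrix (Fin n) (Fin n) ℝ), A.det ≠ 0 →
      ∃ U : Matrix (Fin n) (Fin n) ℤ, U.det = 1 ∧ (∀ i j, i ≠ j → gram A U i j < 0) ∧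
        ∃ d : Fin n → ℕ, (∀ i, 0 < d i) ∧
          ∀ i, ∑ j ∈ univ.erase i, |gram A U i j| * d j < gram A U i i * d i) ∧
    -- (2) the price: the product of the weights and of the index is large
    (∀ n : ℕ, 3 ≤ n → ∀ A : Matrix (Fin n) (Fin n) ℝ, A.det ≠ 0 →
      ∀ U : Matrix (Fin n) (Fin n) ℤ, U.det ≠ 0 → ∀ d : Fin n → ℕ, (∀ i, 0 < d i) →
        (∀ i, ∑ j ∈ univ.erase i, |gram A U i j| * d j ≤ gram A U i i * d i) →
          2 * (gam A / 2) ^ ((n : ℝ) / 2) ≤ |(U.det : ℝ)| * ∏ i, (d i : ℝ)) := by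
  refine ⟨fun n A hA => exists_basis_weights A hA, ?_⟩
  · intro n hn A hA U hU d hd h
    have h2 := gam_le_weights hn A hA U hU d hd h
    have hn' : (0 : ℝ) < n := by
      have : 0 < n := by omega
      positivity
    have hg : 0 ≤ gam A := by
      rw [gam_eq]
      exact div_nonneg (lam_nonneg A) (Real.rpow_nonneg (abs_nonneg _) _)
    set I : ℝ := |(U.det : ℝ)| * ∏ i, (d i : ℝ) with hI
    have hU' : (0 : ℝ) < I := mul_pos (abs_pos.2 (by exact_mod_cast hU))
      (Finset.prod_pos fun i _ => by exact_mod_cast hd i)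
    have h3 : gam A / 2 ≤ 2 ^ (-(2 : ℝ) / n) * I ^ ((2 : ℝ) / n) := by
      rw [div_le_iff₀ (by norm_num)]
      refine h2.trans (le_of_eq ?_)
      rw [show (1 - (2 : ℝ) / n) = 1 + (-(2 : ℝ) / n) by ring, Real.rpow_add (by norm_num),
        Real.rpow_one]
      ring
    have h4 : (gam A / 2) ^ ((n : ℝ) / 2)
        ≤ (2 ^ (-(2 : ℝ) / n) * I ^ ((2 : ℝ) / n)) ^ ((n : ℝ) / 2) :=
      Real.rpow_le_rpow (by positivity) h3 (by positivity)
    have h5 : (2 ^ (-(2 : ℝ) / n) * I ^ ((2 : ℝ) / n)) ^ ((n : ℝ) / 2) = 2⁻¹ * I := by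
      rw [Real.mul_rpow (by positivity) (by positivity), ← Real.rpow_mul (by norm_num),
        ← Real.rpow_mul hU'.le]
      rw [show -(2 : ℝ) / n * (n / 2) = -1 by field_simp,
        show (2 : ℝ) / n * (n / 2) = 1 by field_simp, Real.rpow_one, Real.rpow_neg_one]
    rw [h5] at h4
    linarith

end Pool.Agent.Results.MP_ef2672_gt.WeightedDominance
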